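import Pool.Agent.Helper59_DPL.C1

/-!
Squad DPL (MP_d97b4e_co), `t = 1`, all the levels `r ≤ k - 1`: intersecting families, `n ≥ 2 k`.
-/

namespace Pool.Agent.DPL.H59

open Finset Polynomial Pool.Agent.DPS Pool.Agent.DPL.H18 Pool.Agent.DPL.H81 Pool.Agent.DPL.H94
  Pool.Agent.DPL.H10

/-- the form for `κ = 0` -/
theorem wf_L2z {n k : ℕ} (r : ℕ) (lam : ℝ) (f : KS n k → ℝ) (R : Finset (Fin n)) :
    wf (L2 r lam 0) f R = dg f R - lam * ∑ F : KS n k, f F := by
  unfold wf dg L2
  rw [Finset.mul_sum, ← Finset.sum_sub_distrib]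
  refine Finset.sum_congr rfl fun F _ => ?_
  have h4 : (if (R \ F.1).card = 0 then (1 : ℝ) else 0) = if R ⊆ F.1 then (1 : ℝ) else 0 := by
    simp only [Finset.card_eq_zero, Finset.sdiff_eq_empty_iff_subset]
  rw [h4]
  split_ifs <;> ring

theorem sum_star {n k : ℕ} (T : Finset (Fin n)) :
    ∑ F : KS n k, star k T F = ip (star k T) (star k T) := by
  unfold ip DPS.star
  refine Finset.sum_congr rfl fun F _ => ?_
  split_ifs <;> norm_num

/-- the degrees in the star, `t = 1` -/
theorem dg_star1 (stv : STVStmt) {n k : ℕ} (hkn : k ≤ n) (T R : Finset (Fin n)) (hT : T.card = 1)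
    (hk : 1 ≤ k) (hR : R.card ≤ n - k) :
    dg (star k T) R = ((n - 1 - (R \ T).card).choose (n - k) : ℝ) := by
  have h3 := (stv n k T R (by omega) hkn hR).2.1
  rw [h3, hT]
  unfold dl
  have h4 : n - 1 - (k - 1) = n - k := by omega
  have h5 : (0 : ℝ) < ((n - 1).choose (k - 1) : ℝ) := by
    exact_mod_cast Nat.choose_pos (by omega)
  rw [h4]
  field_simp

/-- every degree in the star is at least `C(n-r-1,k-r-1)` -/
theorem dg_star1_ge (stv : STVStmt) {n k r : ℕ} (hn : 2 * k ≤ n) (hrk : r + 1 ≤ k)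
    (T R : Finset (Fin n)) (hT : T.card = 1) (hR : R.card = r) :
    ((n - r - 1).choose (k - r - 1) : ℝ) ≤ dg (star k T) R := by
  rw [dg_star1 stv (by omega) T R hT (by omega) (by omega)]
  have h1 : (R \ T).card ≤ r := by
    rw [← hR]
    exact card_le_card sdiff_subset
  have h2 : (n - r - 1).choose (k - r - 1) = (n - 1 - r).choose (n - k) := by
    have h3 : n - 1 - r = n - r - 1 := by omega
    rw [h3]
    refine Nat.choose_symm_of_eq_add ?_
    omega
  rw [h2]
  exact_mod_cast Nat.choose_le_choose _ (by omega)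

theorem tsl0 (gcm : GCMStmt) (qtw : QTWStmt) (stv : STVStmt) (n k r : ℕ) (hn : 2 * k ≤ n)
    (hr : 1 ≤ r) (hrk : r + 1 ≤ k) (hk3 : 3 ≤ k) (μ : ℝ) (hμ : 0 ≤ μ)
    (hμ1 : μ ≤ ((n - r - 1).choose (k - r - 1) : ℝ))
    (A : Finset (KS n k)) (hA : ∀ F ∈ A, ∀ G ∈ A, 1 ≤ (F.1 ∩ G.1).card)
    (T : Finset (Fin n)) (hT : T.card = 1) :
    ∑ R ∈ powersetCard r (univ : Finset (Fin n)), (max (dg (ind A) R - μ) 0) ^ 2 ≤
      ∑ R ∈ powersetCard r (univ : Finset (Fin n)), (max (dg (star k T) R - μ) 0) ^ 2 := by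
  have hS : (0 : ℝ) < ((n - 1).choose (k - 1) : ℝ) := by
    exact_mod_cast Nat.choose_pos (by omega)
  obtain ⟨S, hSdef⟩ : ∃ S : ℝ, S = ((n - 1).choose (k - 1) : ℝ) := ⟨_, rfl⟩
  have hS' : 0 < S := by rw [hSdef]; exact hS
  have hip : ip (star k T) (star k T) = S := by
    have h := (stv n k T ∅ (by omega) (by omega) (by simp)).2.2
    rw [hT] at h
    rw [h, hSdef]
  have hcard : (A.card : ℝ) ≤ S := by
    have h := (Pool.Agent.DPS.H59.p2a' n k 1 0 (by omega) (by omega) (by omega) (by omega)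
      A hA T hT).1
    rwa [hip] at h
  obtain ⟨lam, hlam⟩ : ∃ lam : ℝ, lam = μ / S := ⟨_, rfl⟩
  have hlam0 : 0 ≤ lam := by
    rw [hlam]
    exact div_nonneg hμ hS'.le
  have hlamS : lam * S = μ := by
    rw [hlam]
    exact div_mul_cancel₀ _ hS'.ne'
  obtain ⟨m, hm0, hm1, hm2, hm3⟩ := qtw n k r hn (by omega) (by omega) lam 0
  have hta : ∀ l, ta n k r l 0 = 1 := by
    intro l
    unfold ta
    ring
  have hv : ∀ i, i ≤ r → (mp n k r).eval (y n i) = hh n k r i := by
    intro i hi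
    rw [H39.mev n k r i hn (by omega) (by omega), if_pos hi]
    rfl
  have hmnn : ∀ l, l ≤ k → 0 ≤ m l := by
    intro l hl
    rcases Nat.eq_zero_or_pos l with h | h
    · rw [h]
      exact hm0
    · rcases le_or_gt l r with h1 | h1
      · rw [hm1 l h h1]
        exact mul_nonneg (sq_nonneg _) (Pool.Agent.DPS.H83.nonneg hn hl)
      · rw [hm2 l h1]
  have hmono : ∀ l j, 1 ≤ l → l ≤ 1 → 1 < j → j ≤ k → m j ≤ m l := by
    intro l j hl1 hl2 hj1 hj2
    rcases le_or_gt j r with h | h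
    · rw [hm1 j (by omega) h, hm1 l hl1 (by omega), hta, hta, hv j h, hv l (by omega), one_pow,
        one_mul, one_mul]
      exact hh_anti hn (by omega) (by omega) h
    · rw [hm2 j h]
      exact hmnn l (by omega)
  have hmain := gcm n k 1 (by omega) (by omega) (by omega) m hmnn hmono A hA T hT
  rw [← hm3 (ind A), ← hm3 (star k T)] at hmain
  have hleft : ∑ R ∈ powersetCard r (univ : Finset (Fin n)), (max (dg (ind A) R - μ) 0) ^ 2 ≤
      ∑ R ∈ powersetCard r (univ : Finset (Fin n)), wf (L2 r lam 0) (ind A) R ^ 2 := by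
    refine Finset.sum_le_sum fun R hR => tsl_sq ?_
    have h1 := tsl_wf (lam := lam) r (le_refl (0 : ℝ)) A R
    have h2 : lam * (A.card : ℝ) ≤ μ := by
      rw [← hlamS]
      exact mul_le_mul_of_nonneg_left hcard hlam0
    linarith
  have hright : ∑ R ∈ powersetCard r (univ : Finset (Fin n)), wf (L2 r lam 0) (star k T) R ^ 2 =
      ∑ R ∈ powersetCard r (univ : Finset (Fin n)), (max (dg (star k T) R - μ) 0) ^ 2 := by
    refine Finset.sum_congr rfl fun R hR => ?_
    rw [Finset.mem_powersetCard] at hR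
    rw [wf_L2z, sum_star, hip, hlamS, max_eq_left]
    have h1 := dg_star1_ge stv hn hrk T R hT hR.2
    linarith
  rw [← hright]
  exact hleft.trans hmain

theorem tst0 (gcm : GCMStmt) (qtw : QTWStmt) (stv : STVStmt) (n k r : ℕ) (hn : 2 * k ≤ n)
    (hr : 1 ≤ r) (hrk : r + 1 ≤ k) (hk3 : 3 ≤ k) (μ : ℝ) (hμ : 0 ≤ μ)
    (A : Finset (KS n k)) (hA : ∀ F ∈ A, ∀ G ∈ A, 1 ≤ (F.1 ∩ G.1).card)
    (T : Finset (Fin n)) (hT : T.card = 1) :
    ∑ R ∈ powersetCard r (univ : Finset (Fin n)), (max (dg (ind A) R - μ) 0) ^ 2 ≤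
      ∑ R ∈ powersetCard r (univ : Finset (Fin n)), (max (dg (star k T) R - μ) 0) ^ 2 := by
  have hkn : k ≤ n := by omega
  have hlt : ((n - r - 1).choose (k - r - 1) : ℝ) < ((n - r).choose (k - r) : ℝ) := by
    obtain ⟨m, hm⟩ : ∃ m, k - r = m + 1 := ⟨k - r - 1, by omega⟩
    obtain ⟨N, hN⟩ : ∃ N, n - r = N + 1 := ⟨n - r - 1, by omega⟩
    have h1 : n - r - 1 = N := by omega
    have h2 : k - r - 1 = m := by omega
    rw [h1, h2, hm, hN, Nat.choose_succ_succ]
    have h3 : 0 < N.choose (m + 1) := Nat.choose_pos (by omega)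
    push_cast
    have h4 : (0 : ℝ) < (N.choose (m + 1) : ℝ) := by exact_mod_cast h3
    linarith
  have hA0 : ∀ R ∈ powersetCard r (univ : Finset (Fin n)),
      dg (ind A) R ≤ ((n - r).choose (k - r) : ℝ) := by
    intro R hR
    rw [mem_powersetCard] at hR
    have h1 := dg_le stv hkn A R (by omega)
    rwa [hR.2] at h1
  have hS1 : ∀ R ∈ powersetCard r (univ : Finset (Fin n)), T ⊆ R →
      dg (star k T) R = ((n - r).choose (k - r) : ℝ) := by
    intro R hR hTR
    rw [mem_powersetCard] at hR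
    rw [dg_star1 stv hkn T R hT (by omega) (by omega)]
    have h1 : (R \ T).card = r - 1 := by rw [card_sdiff_of_subset hTR, hR.2, hT]
    have h2 : n - 1 - (r - 1) = n - r := by omega
    rw [h1, h2]
    congr 1
    refine Nat.choose_symm_of_eq_add ?_
    omega
  have hS2 : ∀ R ∈ powersetCard r (univ : Finset (Fin n)), ¬ T ⊆ R →
      dg (star k T) R ≤ ((n - r - 1).choose (k - r - 1) : ℝ) := by
    intro R hR hTR
    rw [mem_powersetCard] at hR
    rw [dg_star1 stv hkn T R hT (by omega) (by omega)]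
    have h1 : r ≤ (R \ T).card := by
      have h2 : (T ∩ R).card < T.card := by
        refine card_lt_card ⟨inter_subset_left, fun h => hTR ?_⟩
        exact h.trans inter_subset_right
      have h3 : (R \ T).card + (R ∩ T).card = R.card := card_sdiff_add_card_inter R T
      rw [inter_comm] at h2
      omega
    have h2 : (n - r - 1).choose (k - r - 1) = (n - 1 - r).choose (n - k) := by
      have h3 : n - 1 - r = n - r - 1 := by omega
      rw [h3]
      refine Nat.choose_symm_of_eq_add ?_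
      omega
    rw [h2]
    exact_mod_cast Nat.choose_le_choose _ (by omega)
  have hμ1 : (0 : ℝ) ≤ ((n - r - 1).choose (k - r - 1) : ℝ) := by positivity
  have hT1 := fun h => tsl0 gcm qtw stv n k r hn hr hrk hk3 μ hμ h A hA T hT
  have hT2 := tsl0 gcm qtw stv n k r hn hr hrk hk3 _ hμ1 le_rfl A hA T hT
  generalize ((n - r - 1).choose (k - r - 1) : ℝ) = m at *
  generalize ((n - r).choose (k - r) : ℝ) = D at *
  rcases le_total μ m with h1 | h1
  · exact hT1 h1
  rcases le_total D μ with h2 | h2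
  · refine le_trans (le_of_eq ?_) (Finset.sum_nonneg fun R _ => sq_nonneg _)
    refine Finset.sum_eq_zero fun R hR => ?_
    rw [max_eq_right (by linarith [hA0 R hR])]
    norm_num
  · have hD : 0 < D - m := by linarith
    have hc : 0 ≤ (D - μ) / (D - m) := div_nonneg (by linarith) hD.le
    calc ∑ R ∈ powersetCard r (univ : Finset (Fin n)), (max (dg (ind A) R - μ) 0) ^ 2
        ≤ ∑ R ∈ powersetCard r (univ : Finset (Fin n)),
          ((D - μ) / (D - m)) ^ 2 * (max (dg (ind A) R - m) 0) ^ 2 := by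
          refine Finset.sum_le_sum fun R hR => ?_
          rw [← mul_pow]
          refine pow_le_pow_left₀ (le_max_right _ _) (max_le ?_ ?_) 2
          · rcases le_total (dg (ind A) R) m with h3 | h3
            · have h4 : 0 ≤ (D - μ) / (D - m) * max (dg (ind A) R - m) 0 :=
                mul_nonneg hc (le_max_right _ _)
              linarith
            · rw [max_eq_left (by linarith), div_mul_eq_mul_div, le_div_iff₀ hD]
              nlinarith [mul_nonneg (sub_nonneg.2 (hA0 R hR)) (sub_nonneg.2 h1)]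
          · exact mul_nonneg hc (le_max_right _ _)
      _ = ((D - μ) / (D - m)) ^ 2 * ∑ R ∈ powersetCard r (univ : Finset (Fin n)),
          (max (dg (ind A) R - m) 0) ^ 2 := by rw [Finset.mul_sum]
      _ ≤ ((D - μ) / (D - m)) ^ 2 * ∑ R ∈ powersetCard r (univ : Finset (Fin n)),
          (max (dg (star k T) R - m) 0) ^ 2 := mul_le_mul_of_nonneg_left hT2 (sq_nonneg _)
      _ = ∑ R ∈ powersetCard r (univ : Finset (Fin n)),
          ((D - μ) / (D - m)) ^ 2 * (max (dg (star k T) R - m) 0) ^ 2 := by rw [Finset.mul_sum]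
      _ = ∑ R ∈ powersetCard r (univ : Finset (Fin n)), (max (dg (star k T) R - μ) 0) ^ 2 := by
          refine Finset.sum_congr rfl fun R hR => ?_
          by_cases h3 : T ⊆ R
          · rw [hS1 R hR h3, max_eq_left hD.le, max_eq_left (by linarith), ← mul_pow,
              div_mul_cancel₀ _ hD.ne']
          · have h4 := hS2 R hR h3
            rw [max_eq_right (by linarith), max_eq_right (by linarith)]
            norm_num

/-! ### The power sums -/

open Pool.Agent.DPS.H59

theorem gcm' : GCMStmt := H53.gcm H23.cer odd' H76.lze H94.ide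

theorem qtw' : QTWStmt := H65.qtw H94.ide ply' H76.lze (H81.wel dge' tau' H18.dis)

/-- `t = 2`, all the levels `r ≤ k - 1`. -/
theorem finalC1 (n k r : ℕ) (hrk : r + 1 ≤ k) (hn : 3 * (k - 1) ≤ n) (p : ℝ) (hp : 2 ≤ p)
    (A : Finset (Finset (Fin n))) (hA : A ⊆ powersetCard k univ) (hAt : TInt 2 A)
    (T : Finset (Fin n)) (hTc : T.card = 2) (hk : 2 ≤ k) : ell r p A ≤ ell r p (fullStar k T) := by
  have hn' : (2 + 1) * (k - 2 + 1) ≤ n := by
    have e : k - 2 + 1 = k - 1 := by omega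
    rw [e]
    exact hn
  rcases Nat.lt_or_ge 2 r with h | h
  · exact transfer H89.pwr A hA T
      (fun μ hμ => tst1 gcm' qtw' stv' n k r hn h hrk μ hμ (lft k A)
        (Pool.Agent.DPS.H59.lft_tint (k := k) A hAt) T hTc) hp
  · exact finalA n k 2 r (by norm_num) hk h hn' p hp A hA hAt T hTc

/-- `t = 1`, all the levels `r ≤ k - 1`. -/
theorem final1 (n k r : ℕ) (hrk : r + 1 ≤ k) (hn : 2 * k ≤ n) (p : ℝ) (hp : 2 ≤ p)
    (A : Finset (Finset (Fin n))) (hA : A ⊆ powersetCard k univ) (hAt : TInt 1 A)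
    (T : Finset (Fin n)) (hTc : T.card = 1) : ell r p A ≤ ell r p (fullStar k T) := by
  rcases Nat.lt_or_ge 1 r with h | h
  · exact transfer H89.pwr A hA T
      (fun μ hμ => tst0 gcm' qtw' stv' n k r hn (by omega) hrk (by omega) μ hμ (lft k A)
        (Pool.Agent.DPS.H59.lft_tint (k := k) A hAt) T hTc) hp
  · exact finalA n k 1 r (by norm_num) (by omega) h (by omega) p hp A hA hAt T hTc

end Pool.Agent.DPL.H59
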