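import Pool.Agent.Helper59_DPL.FIN
import Pool.Agent.Helper59_DPS.All
import Pool.Agent.Helper39_DPL.CSC
import Pool.Agent.Helper88_DPL.Thc
import Pool.Agent.Helper39_DPL.KRA
import Pool.Agent.Helper88_DPL.Oda
import Pool.Agent.Helper23_DPL.CER
import Pool.Agent.Helper9_DPL.LEV
import Pool.Agent.Helper76_DPL.LZE
import Pool.Agent.Helper25_DPL.WDG
import Pool.Agent.Helper23_DPL.PRM
import Pool.Agent.Helper92_DPL.PLY
import Pool.Agent.Helper88_DPL.Frm
import Pool.Agent.Helper88_DPL.Wfi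
import Pool.Agent.Helper5_DPL.NWT
import Pool.Agent.Helper17_DPL.HYP
import Pool.Agent.Helper38_DPL.ALT
import Pool.Agent.Helper66_DPL.Gex
import Pool.Agent.Helper88_DPL.Cnt
import Pool.Agent.Helper5_DPL.STV
import Pool.Agent.Helper66_DPL.Maj
import Pool.Agent.Helper89_DPL.PWI
import Pool.Agent.Helper18_DPL.KTS
import Pool.Agent.Helper18_DPL.KT1
import Pool.Agent.Helper66_DPL.Tsq

/-!
Assembly of the squad DPL (MP_d97b4e_co), levels `r ≤ t`.
-/

namespace Pool.Agent.DPL.H59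

open Pool.Agent.DPS.H59

theorem oda' : ODAStmt := H88.oda H39.csc H88.thc H39.kra

theorem lex' : LEXStmt :=
  H66.lex (H66.gex H5.nwt H17.hyp H17.dif H38.alt H17.mnb) H17.hyp

theorem stv' : STVStmt := H5.stv H88.cnt

theorem kt1' : KT1Stmt := H18.kt1 H18.kts H18.nkt

theorem ply' : PLYStmt := H92.ply H23.prm

/-- The levels `r ≤ t`, from the remaining rows. -/
theorem finalA_of (hODD : ODDStmt) (hIDE : IDEStmt) (hDGE : DGEStmt) : FinalA :=
  finA H89.pwr
    (H66.tsq (H88.wfi (H09.lev H23.cer hODD) H76.lze (H88.frm hIDE hDGE H25.wdg ply')) lex' stv'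
      H66.maj) kt1'

end Pool.Agent.DPL.H59
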