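import Pool.Agent.Helper59_DPL.AllA
import Pool.Agent.Helper94_DPL.ODB
import Pool.Agent.Helper94_DPL.IDE
import Pool.Agent.Helper60_DPL.ODD
import Pool.Agent.Helper60_DPL.DGE

/-!
Assembly of the squad DPL (MP_d97b4e_co), levels `r ≤ t`: no hypotheses left.
-/

namespace Pool.Agent.DPL.H59

theorem odd' : ODDStmt := H60.odd oda' (H94.odb H39.csc H39.kra)

theorem finalA : FinalA := finalA_of odd' H94.ide (H60.dge H94.ide)

end Pool.Agent.DPL.H59
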