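import Pool.Agent.Helper59_DPL.AllA2
import Pool.Agent.Helper53_DPL.GCM
import Pool.Agent.Helper18_DPL.LAD
import Pool.Agent.Helper15_DPL.LAS
import Pool.Agent.Helper94_DPL.TAU
import Pool.Agent.Helper81_DPL.WEL
import Pool.Agent.Helper65_DPL.QTW
import Pool.Agent.Helper18_DPL.MON
import Pool.Agent.Helper81_DPL.ST2
import Pool.Agent.Helper94_DPL.TSL
import Pool.Agent.Helper10_DPL.TST

/-!
Assembly of the squad DPL (MP_d97b4e_co), `t = 2`, all levels: no hypotheses left.
-/

namespace Pool.Agent.DPL.H59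

theorem dge' : DGEStmt := H60.dge H94.ide

theorem tau' : TAUStmt := H94.tau H94.ide dge' (H15.las H18.lad) H18.vdm H18.dis

theorem tsl' : TSLStmt :=
  H94.tsl (H53.gcm H23.cer odd' H76.lze H94.ide)
    (H65.qtw H94.ide ply' H76.lze (H81.wel dge' tau' H18.dis)) H18.mon H18.kbd (H81.st2 stv') stv'

theorem finalC : FinalC := finC H89.pwr finalA (H10.tst tsl' stv')

end Pool.Agent.DPL.H59
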