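import Pool.Agent.Helper59_DPL.AllC

/-!
Squad DPL (MP_d97b4e_co), part C for all the levels `r ≤ k - 1` (adapted from the rows MON, KBD, ST2, TSL,
TST).
-/

namespace Pool.Agent.DPL.H59

open Finset Polynomial Pool.Agent.DPS Pool.Agent.DPL.H18 Pool.Agent.DPL.H81 Pool.Agent.DPL.H94
  Pool.Agent.DPL.H10

theorem mon1 (n k r l j : ℕ) (κ : ℝ) (hn3 : 3 * (k - 1) ≤ n) (hr3 : 3 ≤ r) (hrk : r + 1 ≤ k)
    (hκ : 0 ≤ κ)
    (hκ2 : κ ≤ ((k - 2).descFactorial (r - 1) : ℝ) / ((n - k - 1).descFactorial (r - 1) : ℝ))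
    (hl1 : 1 ≤ l) (hl2 : l ≤ 2) (hj2 : 2 < j) (hjr : j ≤ r) :
    ta n k r j κ ^ 2 * (mp n k r).eval (y n j) ≤ ta n k r l κ ^ 2 * (mp n k r).eval (y n l) := by
  have hn : 2 * k ≤ n := by omega
  have hr : r ≤ k := by omega
  have hv : ∀ i, i ≤ r → (mp n k r).eval (y n i) = hh n k r i := by
    intro i hi
    rw [H39.mev n k r i hn hr (by omega), if_pos hi]
    rfl
  rw [hv j hjr, hv l (by omega), ta_eq, ta_eq]
  -- real versions
  have R3 : (3 : ℝ) ≤ r := by exact_mod_cast hr3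
  have RK : (r : ℝ) + 1 ≤ k := by exact_mod_cast hrk
  have RN : (2 : ℝ) * k ≤ n := by exact_mod_cast hn
  obtain ⟨x, hx⟩ : ∃ x : ℕ → ℝ, x = fun i => κ * rr n k r i := ⟨_, rfl⟩
  have hxe : ∀ i, κ * rr n k r i = x i := fun i => by rw [hx]
  rw [hxe, hxe]
  have hx0 : ∀ i, 0 ≤ x i := fun i => by rw [hx]; exact mul_nonneg hκ (rr_nonneg _ _ _ _)
  have hxa : ∀ {i i' : ℕ}, i ≤ i' → i' ≤ r → x i' ≤ x i := by
    intro i i' h1 h2
    rw [hx]
    exact mul_le_mul_of_nonneg_left (rr_anti hn hr h1 h2) hκ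
  have hh0 := hh_nonneg n k r
  -- bound of `x 1`
  have hx1 : x 1 * ((k : ℝ) - 1) ≤ (k : ℝ) - r := by
    obtain ⟨s, rfl⟩ : ∃ s, r = s + 2 := ⟨r - 2, by omega⟩
    obtain ⟨m, hm⟩ : ∃ m, k - 2 = m := ⟨_, rfl⟩
    have e1 : s + 2 - 1 = s + 1 := by omega
    have hd : (k - 1).descFactorial (s + 1) = (k - 1) * (k - 2).descFactorial s := by
      rw [show k - 1 = (k - 2) + 1 by omega, Nat.succ_descFactorial_succ]
    have hd2 : (k - 2).descFactorial (s + 1) = (k - 2 - s) * (k - 2).descFactorial s :=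
      Nat.descFactorial_succ _ _
    have p1 : (0 : ℝ) < ((k - 2).descFactorial s : ℝ) := by
      exact_mod_cast Nat.descFactorial_pos.2 (by omega)
    have p2 : (0 : ℝ) < ((n - k - 1).descFactorial (s + 1) : ℝ) := by
      exact_mod_cast Nat.descFactorial_pos.2 (by omega)
    have c1 : ((k - 1 : ℕ) : ℝ) = (k : ℝ) - 1 := by rw [Nat.cast_sub (by omega)]; norm_num
    have c2 : ((k - 2 - s : ℕ) : ℝ) = (k : ℝ) - (s + 2 : ℕ) := by
      rw [show k - 2 - s = k - (s + 2) by omega, Nat.cast_sub (by omega)]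
    have hk1 : (0 : ℝ) < (k : ℝ) - 1 := by linarith
    rw [e1] at hκ2
    have h1 : x 1 ≤ ((k - 2).descFactorial (s + 1) : ℝ) / ((n - k - 1).descFactorial (s + 1) : ℝ) *
        rr n k (s + 2) 1 := by
      rw [hx]
      exact mul_le_mul_of_nonneg_right hκ2 (rr_nonneg _ _ _ _)
    have h2 : ((k - 2).descFactorial (s + 1) : ℝ) / ((n - k - 1).descFactorial (s + 1) : ℝ) *
        rr n k (s + 2) 1 * ((k : ℝ) - 1) = (k : ℝ) - (s + 2 : ℕ) := by
      unfold rr
      rw [e1, hd, hd2, Nat.cast_mul, Nat.cast_mul, c1, c2]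
      field_simp
    calc x 1 * ((k : ℝ) - 1) ≤ _ := mul_le_mul_of_nonneg_right h1 hk1.le
      _ = _ := h2
  -- bound of `x 2`
  have hx2 : x 2 * ((n : ℝ) - k - 1) ≤ (k : ℝ) - r := by
    have h := rr_succ (l := 1) hn (by omega) hr
    have h' : x 1 * ((k : ℝ) - 1) = x 2 * ((n : ℝ) - k - 1) := by
      rw [hx]
      push_cast at h
      linear_combination κ * h
    linarith
  have habs : ∀ i, (1 + (-1 : ℝ) ^ i * x i) ^ 2 ≤ (1 + x i) ^ 2 := by
    intro i
    have := hx0 i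
    rcases neg_one_pow_eq_or ℝ i with h | h
    · rw [h]; nlinarith
    · rw [h]; nlinarith
  have hxj : x j ≤ x 2 := hxa (by omega) hjr
  have hj' : (1 + (-1 : ℝ) ^ j * x j) ^ 2 ≤ (1 + x 2) ^ 2 :=
    (habs j).trans (pow_le_pow_left₀ (by have := hx0 j; linarith) (by linarith) 2)
  rcases (show l = 2 ∨ l = 1 by omega) with h | h
  · -- `l = 2`
    rw [h]
    have e : (1 + (-1 : ℝ) ^ 2 * x 2) ^ 2 = (1 + x 2) ^ 2 := by norm_num
    rw [e]
    exact mul_le_mul hj' (hh_anti hn hr (by omega) hjr) (hh0 _) (sq_nonneg _)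
  · -- `l = 1`
    rw [h]
    have e : (1 + (-1 : ℝ) ^ 1 * x 1) ^ 2 = (1 - x 1) ^ 2 := by
      rw [pow_one]; ring
    rw [e]
    have hh3 : hh n k r j ≤ hh n k r 3 := hh_anti hn hr (by omega) hjr
    have s1 := hh_succ (l := 1) hn (by omega) hr
    have s2 := hh_succ (l := 2) hn (by omega) hr
    push_cast at s1 s2
    have k1 : (0 : ℝ) < (k : ℝ) - 1 := by linarith
    have k2 : (0 : ℝ) < (k : ℝ) - 2 := by linarith
    have n1 : (0 : ℝ) < (n : ℝ) - k - 1 := by linarith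
    have n2 : (0 : ℝ) < (n : ℝ) - k - 2 := by linarith
    have m1 : (0 : ℝ) < (n : ℝ) - r - 1 := by linarith
    have m2 : (0 : ℝ) < (n : ℝ) - r - 2 := by linarith
    have h3e : hh n k r 3 * (((k : ℝ) - 1) * ((n : ℝ) - r - 1)) * (((k : ℝ) - 2) * ((n : ℝ) - r - 2)) =
        hh n k r 1 * (((r : ℝ) - 1) * ((n : ℝ) - k - 1)) * (((r : ℝ) - 2) * ((n : ℝ) - k - 2)) := by
      have e1 : hh n k r (1 + 1) = hh n k r 2 := rfl
      have e2 : hh n k r (2 + 1) = hh n k r 3 := rfl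
      rw [e1] at s1
      rw [e2] at s2
      linear_combination (((k : ℝ) - 1) * ((n : ℝ) - r - 1)) * s2 +
        (((r : ℝ) - 2) * ((n : ℝ) - k - 2)) * s1
    -- `(1 + x 2)^2 (n-k-1)(n-k-2) ≤ (n-r-1)(n-r-2)`
    have hsq : (1 + x 2) ^ 2 * (((n : ℝ) - k - 1) * ((n : ℝ) - k - 2)) ≤
        ((n : ℝ) - r - 1) * ((n : ℝ) - r - 2) := by
      have a1 : (1 + x 2) * ((n : ℝ) - k - 1) ≤ (n : ℝ) - r - 1 := by
        have : (1 + x 2) * ((n : ℝ) - k - 1) = ((n : ℝ) - k - 1) + x 2 * ((n : ℝ) - k - 1) := by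
          ring
        rw [this]; linarith
      have a2 : (1 + x 2) * ((n : ℝ) - k - 2) ≤ (n : ℝ) - r - 2 := by
        have : (1 + x 2) * ((n : ℝ) - k - 2) = (1 + x 2) * ((n : ℝ) - k - 1) - (1 + x 2) := by ring
        rw [this]
        have := hx0 2
        linarith
      calc (1 + x 2) ^ 2 * (((n : ℝ) - k - 1) * ((n : ℝ) - k - 2))
          = ((1 + x 2) * ((n : ℝ) - k - 1)) * ((1 + x 2) * ((n : ℝ) - k - 2)) := by ring
        _ ≤ ((n : ℝ) - r - 1) * ((n : ℝ) - r - 2) :=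
            mul_le_mul a1 a2 (mul_nonneg (by have := hx0 2; linarith) n2.le) m1.le
    -- `(1 - x 1) (k - 1) ≥ r - 1`
    have b1 : (r : ℝ) - 1 ≤ (1 - x 1) * ((k : ℝ) - 1) := by
      have : (1 - x 1) * ((k : ℝ) - 1) = ((k : ℝ) - 1) - x 1 * ((k : ℝ) - 1) := by ring
      rw [this]; linarith
    have b2 : ((r : ℝ) - 1) ^ 2 ≤ (1 - x 1) ^ 2 * ((k : ℝ) - 1) ^ 2 := by
      have := pow_le_pow_left₀ (show (0 : ℝ) ≤ (r : ℝ) - 1 by linarith) b1 2
      rwa [mul_pow] at this
    have b3 : ((r : ℝ) - 2) * ((k : ℝ) - 1) ≤ ((r : ℝ) - 1) * ((k : ℝ) - 2) := by nlinarith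
    -- assemble
    have hp : (0 : ℝ) < (((k : ℝ) - 1) * ((n : ℝ) - r - 1)) * (((k : ℝ) - 2) * ((n : ℝ) - r - 2)) *
        ((k : ℝ) - 1) := by positivity
    apply le_of_mul_le_mul_right _ hp
    have hA : (1 + (-1 : ℝ) ^ j * x j) ^ 2 * hh n k r j ≤ (1 + x 2) ^ 2 * hh n k r 3 :=
      mul_le_mul hj' hh3 (hh0 _) (sq_nonneg _)
    calc (1 + (-1 : ℝ) ^ j * x j) ^ 2 * hh n k r j *
          ((((k : ℝ) - 1) * ((n : ℝ) - r - 1)) * (((k : ℝ) - 2) * ((n : ℝ) - r - 2)) *
            ((k : ℝ) - 1))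
        ≤ (1 + x 2) ^ 2 * hh n k r 3 *
          ((((k : ℝ) - 1) * ((n : ℝ) - r - 1)) * (((k : ℝ) - 2) * ((n : ℝ) - r - 2)) *
            ((k : ℝ) - 1)) := mul_le_mul_of_nonneg_right hA hp.le
      _ = (1 + x 2) ^ 2 * (hh n k r 3 * (((k : ℝ) - 1) * ((n : ℝ) - r - 1)) *
            (((k : ℝ) - 2) * ((n : ℝ) - r - 2))) * ((k : ℝ) - 1) := by ring
      _ = ((1 + x 2) ^ 2 * (((n : ℝ) - k - 1) * ((n : ℝ) - k - 2))) *
            (hh n k r 1 * ((r : ℝ) - 1) * (((r : ℝ) - 2) * ((k : ℝ) - 1))) := by rw [h3e]; ring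
      _ ≤ (((n : ℝ) - r - 1) * ((n : ℝ) - r - 2)) *
            (hh n k r 1 * ((r : ℝ) - 1) * (((r : ℝ) - 1) * ((k : ℝ) - 2))) := by
          have q1 : 0 ≤ hh n k r 1 * ((r : ℝ) - 1) := mul_nonneg (hh0 1) (by linarith)
          refine mul_le_mul hsq (mul_le_mul_of_nonneg_left b3 q1) ?_ (by positivity)
          exact mul_nonneg q1 (mul_nonneg (by linarith) k1.le)
      _ = (((n : ℝ) - r - 1) * ((n : ℝ) - r - 2) * ((k : ℝ) - 2) * hh n k r 1) *
            ((r : ℝ) - 1) ^ 2 := by ring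
      _ ≤ (((n : ℝ) - r - 1) * ((n : ℝ) - r - 2) * ((k : ℝ) - 2) * hh n k r 1) *
            ((1 - x 1) ^ 2 * ((k : ℝ) - 1) ^ 2) :=
          mul_le_mul_of_nonneg_left b2 (mul_nonneg (by positivity) (hh0 1))
      _ = _ := by ring

theorem kbd1 (n k r : ℕ) (lam : ℝ) (hn : 2 * k ≤ n) (hr : 3 ≤ r) (hrk : r + 1 ≤ k)
    (hlam : lam ≤ dl (n - 2) (k - 2) (r - 1)) :
    max (lam - dl (n - 2) (k - 2) r) 0 * ((n - 2).choose (k - 2) : ℝ) /
        ((n - 2 - r).choose (k - 2) : ℝ) ≤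
      ((k - 2).descFactorial (r - 1) : ℝ) / ((n - k - 1).descFactorial (r - 1) : ℝ) := by
  obtain ⟨s, rfl⟩ : ∃ s, r = s + 1 := ⟨r - 1, by omega⟩
  obtain ⟨d, hd⟩ : ∃ d, k - 2 = d + s := ⟨k - 2 - s, by omega⟩
  obtain ⟨e, he⟩ : ∃ e, n - k - 1 = e + s := ⟨n - k - 1 - s, by omega⟩
  have hN : n - 2 - (s + 1) = d + s + e := by omega
  have hNK : n - 2 - (k - 2) = e + s + 1 := by omega
  have hc1 : 0 < (n - 2).choose (k - 2) := Nat.choose_pos (by omega)
  have hc2 : 0 < (n - 2 - (s + 1)).choose (k - 2) := Nat.choose_pos (by omega)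
  have hc1' : (0 : ℝ) < ((n - 2).choose (k - 2) : ℝ) := by exact_mod_cast hc1
  have hc2' : (0 : ℝ) < ((n - 2 - (s + 1)).choose (k - 2) : ℝ) := by exact_mod_cast hc2
  -- the difference
  have hdiff : (dl (n - 2) (k - 2) s - dl (n - 2) (k - 2) (s + 1)) *
      ((n - 2).choose (k - 2) : ℝ) = ((d + s + e).choose (e + s) : ℝ) := by
    unfold dl
    rw [hN, hNK, show n - 2 - s = d + s + e + 1 by omega, Nat.choose_succ_succ]
    push_cast
    field_simp
    ring
  have hle : max (lam - dl (n - 2) (k - 2) (s + 1)) 0 * ((n - 2).choose (k - 2) : ℝ) ≤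
      ((d + s + e).choose (e + s) : ℝ) := by
    rcases le_total (lam - dl (n - 2) (k - 2) (s + 1)) 0 with h | h
    · rw [max_eq_right h, zero_mul]; positivity
    · rw [max_eq_left h, ← hdiff]
      apply mul_le_mul_of_nonneg_right _ hc1'.le
      have : lam ≤ dl (n - 2) (k - 2) s := hlam
      linarith
  have hpos : (0 : ℝ) < ((e + s).descFactorial s : ℝ) := by
    exact_mod_cast Nat.descFactorial_pos.2 (by omega)
  rw [Nat.add_sub_cancel, he, div_le_div_iff₀ hc2' hpos, hN, hd]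
  rw [hd] at hle
  refine (mul_le_mul_of_nonneg_right hle hpos.le).trans (le_of_eq ?_)
  exact_mod_cast ratio d e s

theorem st21 (hstv : STVStmt) (n k r : ℕ) (lam : ℝ) (hn : 3 * (k - 1) ≤ n) (hr : 3 ≤ r)
    (hrk : r + 1 ≤ k) (hlam : 0 ≤ lam)
    (hle : lam ≤ dl (n - 2) (k - 2) (r - 1)) (T R : Finset (Fin n)) (hT : T.card = 2)
    (hR : R.card = r) :
    wf (L2 r lam (max (lam - dl (n - 2) (k - 2) r) 0 * ((n - 2).choose (k - 2) : ℝ) /
        ((n - 2 - r).choose (k - 2) : ℝ))) (star k T) R =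
      max (dg (star k T) R - lam * ip (star k T) (star k T)) 0 := by
  have hTk : T.card ≤ k := by omega
  have hkn : k ≤ n := by omega
  have hRn : R.card ≤ n - k := by omega
  obtain ⟨hwf, hdg, hip⟩ := hstv n k T R hTk hkn hRn
  -- the sum of the `pc` is `C(N,K)`
  have hone : ∑ u ∈ range ((R \ T).card + 1),
      (pc (n - T.card) (k - T.card) (R \ T).card u : ℝ) = ((n - T.card).choose (k - T.card) : ℝ) := by
    have h1 := (hstv n k T R hTk hkn hRn).1 (fun _ => 1)
    have h2 : wf (fun _ => (1 : ℝ)) (star k T) R = ip (star k T) (star k T) := by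
      unfold wf ip DPS.star
      refine Finset.sum_congr rfl fun F _ => ?_
      split_ifs <;> simp
    rw [← hip, ← h2, h1]
    simp
  have hzero : (pc (n - T.card) (k - T.card) (R \ T).card 0 : ℝ) =
      ((n - T.card).choose (k - T.card) : ℝ) * dl (n - T.card) (k - T.card) (R \ T).card := by
    have h3 : ((n - T.card).choose (k - T.card) : ℝ) ≠ 0 := by
      have : 0 < (n - T.card).choose (k - T.card) := Nat.choose_pos (by omega)
      positivity
    unfold dl pc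
    rw [mul_div_cancel₀ _ h3]
    simp
  rw [hT] at hwf hdg hip hone hzero
  set s := (R \ T).card with hs
  have hsr : s ≤ r := by
    rw [hs, ← hR]
    exact Finset.card_le_card Finset.sdiff_subset
  set C := ((n - 2).choose (k - 2) : ℝ) with hC
  have hCpos : 0 < C := by
    have : 0 < (n - 2).choose (k - 2) := Nat.choose_pos (by omega)
    rw [hC]
    positivity
  set κ := max (lam - dl (n - 2) (k - 2) r) 0 * C / ((n - 2 - r).choose (k - 2) : ℝ) with hκ
  have hsum : ∑ u ∈ range (s + 1), (pc (n - 2) (k - 2) s u : ℝ) * L2 r lam κ u =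
      C * dl (n - 2) (k - 2) s - lam * C + (if s = r then (pc (n - 2) (k - 2) r r : ℝ) * κ else 0) := by
    have e1 : ∀ u ∈ range (s + 1), (pc (n - 2) (k - 2) s u : ℝ) * L2 r lam κ u =
        (if u = 0 then (pc (n - 2) (k - 2) s u : ℝ) else 0) - lam * (pc (n - 2) (k - 2) s u : ℝ) +
          (if u = r then (pc (n - 2) (k - 2) s u : ℝ) * κ else 0) := by
      intro u _
      unfold L2
      split_ifs <;> ring
    rw [Finset.sum_congr rfl e1, Finset.sum_add_distrib, Finset.sum_sub_distrib,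
      ← Finset.mul_sum, hone, Finset.sum_ite_eq', Finset.sum_ite_eq', if_pos (by simp), hzero]
    congr 1
    by_cases h : s = r
    · rw [if_pos h, if_pos (by rw [Finset.mem_range]; omega), h]
    · rw [if_neg h, if_neg (by rw [Finset.mem_range]; omega)]
  rw [hwf, hsum, hdg, hip]
  by_cases h : s = r
  · rw [if_pos h, h]
    have hpc : (pc (n - 2) (k - 2) r r : ℝ) = ((n - 2 - r).choose (k - 2) : ℝ) := by
      unfold pc
      rw [Nat.choose_self, one_mul]
      congr 1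
      have : n - 2 - (k - 2) - r = (n - 2 - r) - (k - 2) := by omega
      rw [this]
      exact Nat.choose_symm (by omega)
    have hne : ((n - 2 - r).choose (k - 2) : ℝ) ≠ 0 := by
      have : 0 < (n - 2 - r).choose (k - 2) := Nat.choose_pos (by omega)
      positivity
    rw [hpc, hκ, mul_div_cancel₀ _ hne]
    rcases le_total lam (dl (n - 2) (k - 2) r) with h1 | h1
    · rw [max_eq_right (by linarith : lam - dl (n - 2) (k - 2) r ≤ 0)]
      have h2 : 0 ≤ C * (dl (n - 2) (k - 2) r - lam) :=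
        mul_nonneg hCpos.le (by linarith)
      rw [max_eq_left (by linarith : 0 ≤ C * dl (n - 2) (k - 2) r - lam * C)]
      ring
    · rw [max_eq_left (by linarith : 0 ≤ lam - dl (n - 2) (k - 2) r)]
      have h2 : 0 ≤ C * (lam - dl (n - 2) (k - 2) r) :=
        mul_nonneg hCpos.le (by linarith)
      rw [max_eq_right (by linarith : C * dl (n - 2) (k - 2) r - lam * C ≤ 0)]
      ring
  · rw [if_neg h, add_zero]
    have h1 : lam ≤ dl (n - 2) (k - 2) s := hle.trans (dl_anti _ _ (by omega))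
    have h2 : 0 ≤ C * (dl (n - 2) (k - 2) s - lam) := mul_nonneg hCpos.le (by linarith)
    rw [max_eq_left (by linarith : 0 ≤ C * dl (n - 2) (k - 2) s - lam * C)]

theorem tsl1 (gcm : GCMStmt) (qtw : QTWStmt) (stv : STVStmt) (n k r : ℕ) (hn : 3 * (k - 1) ≤ n)
    (hr : 3 ≤ r) (hrk : r + 1 ≤ k) (μ : ℝ) (hμ : 0 ≤ μ)
    (hμ1 : μ ≤ ((n - r - 1).choose (k - r - 1) : ℝ))
    (A : Finset (KS n k)) (hA : ∀ F ∈ A, ∀ G ∈ A, 2 ≤ (F.1 ∩ G.1).card)
    (T : Finset (Fin n)) (hT : T.card = 2) :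
    ∑ R ∈ powersetCard r (univ : Finset (Fin n)), (max (dg (ind A) R - μ) 0) ^ 2 ≤
      ∑ R ∈ powersetCard r (univ : Finset (Fin n)), (max (dg (star k T) R - μ) 0) ^ 2 := by
  have h2k : 2 * k ≤ n := by omega
  have hS : (0 : ℝ) < ((n - 2).choose (k - 2) : ℝ) := by
    exact_mod_cast Nat.choose_pos (by omega)
  obtain ⟨S, hSdef⟩ : ∃ S : ℝ, S = ((n - 2).choose (k - 2) : ℝ) := ⟨_, rfl⟩
  have hS' : 0 < S := by rw [hSdef]; exact hS
  have hip : ip (star k T) (star k T) = S := by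
    have h := (stv n k T ∅ (by omega) (by omega) (by simp)).2.2
    rw [hT] at h
    rw [h, hSdef]
  have hcard : (A.card : ℝ) ≤ S := by
    have h := (Pool.Agent.DPS.H59.p2a' n k 2 0 (by omega) (by omega) (by omega) (by omega)
      A hA T hT).1
    rwa [hip] at h
  obtain ⟨lam, hlam⟩ : ∃ lam : ℝ, lam = μ / S := ⟨_, rfl⟩
  have hlam0 : 0 ≤ lam := by
    rw [hlam]
    exact div_nonneg hμ hS'.le
  have hlamS : lam * S = μ := by
    rw [hlam]
    exact div_mul_cancel₀ _ hS'.ne'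
  have hlam1 : lam ≤ dl (n - 2) (k - 2) (r - 1) := by
    unfold dl
    rw [hlam, hSdef]
    refine div_le_div_of_nonneg_right ?_ hS.le
    have e1 : n - 2 - (r - 1) = n - r - 1 := by omega
    have e2 : n - 2 - (k - 2) = n - k := by omega
    have e3 : (n - r - 1).choose (n - k) = (n - r - 1).choose (k - r - 1) := by
      rw [← Nat.choose_symm (show n - k ≤ n - r - 1 by omega)]
      congr 1
      omega
    rw [e1, e2, e3]
    exact hμ1
  obtain ⟨κ, hκ⟩ : ∃ κ : ℝ, κ = max (lam - dl (n - 2) (k - 2) r) 0 *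
      ((n - 2).choose (k - 2) : ℝ) / ((n - 2 - r).choose (k - 2) : ℝ) := ⟨_, rfl⟩
  have hκ0 : 0 ≤ κ := by
    rw [hκ]
    exact div_nonneg (mul_nonneg (le_max_right _ _) hS.le) (Nat.cast_nonneg _)
  have hκ1 := kbd1 n k r lam h2k hr hrk hlam1
  rw [← hκ] at hκ1
  obtain ⟨m, hm0, hm1, hm2, hm3⟩ := qtw n k r h2k (by omega) (by omega) lam κ
  have hmnn : ∀ l, l ≤ k → 0 ≤ m l := by
    intro l hl
    rcases Nat.eq_zero_or_pos l with h | h
    · rw [h]
      exact hm0
    · rcases le_or_gt l r with h1 | h1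
      · rw [hm1 l h h1]
        exact mul_nonneg (sq_nonneg _) (Pool.Agent.DPS.H83.nonneg h2k hl)
      · rw [hm2 l h1]
  have hmono : ∀ l j, 1 ≤ l → l ≤ 2 → 2 < j → j ≤ k → m j ≤ m l := by
    intro l j hl1 hl2 hj1 hj2
    rcases le_or_gt j r with h | h
    · rw [hm1 j (by omega) h, hm1 l hl1 (by omega)]
      exact mon1 n k r l j κ hn hr hrk hκ0 hκ1 hl1 hl2 hj1 h
    · rw [hm2 j h]
      exact hmnn l (by omega)
  have hmain := gcm n k 2 (by omega) (by omega) (by omega) m hmnn hmono A hA T hT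
  rw [← hm3 (ind A), ← hm3 (star k T)] at hmain
  have hleft : ∑ R ∈ powersetCard r (univ : Finset (Fin n)), (max (dg (ind A) R - μ) 0) ^ 2 ≤
      ∑ R ∈ powersetCard r (univ : Finset (Fin n)), wf (L2 r lam κ) (ind A) R ^ 2 := by
    refine Finset.sum_le_sum fun R hR => tsl_sq ?_
    have h1 := tsl_wf (lam := lam) r hκ0 A R
    have h2 : lam * (A.card : ℝ) ≤ μ := by
      rw [← hlamS]
      exact mul_le_mul_of_nonneg_left hcard hlam0
    linarith
  have hright : ∑ R ∈ powersetCard r (univ : Finset (Fin n)), wf (L2 r lam κ) (star k T) R ^ 2 =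
      ∑ R ∈ powersetCard r (univ : Finset (Fin n)), (max (dg (star k T) R - μ) 0) ^ 2 := by
    refine Finset.sum_congr rfl fun R hR => ?_
    rw [Finset.mem_powersetCard] at hR
    have h1 := st21 stv n k r lam hn hr hrk hlam0 hlam1 T R hT hR.2
    rw [← hκ] at h1
    rw [h1, hip, hlamS]
  rw [← hright]
  exact hleft.trans hmain

theorem tst1 (gcm : GCMStmt) (qtw : QTWStmt) (stv : STVStmt) (n k r : ℕ) (hn : 3 * (k - 1) ≤ n)
    (hr : 3 ≤ r) (hrk : r + 1 ≤ k) (μ : ℝ) (hμ : 0 ≤ μ)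
    (A : Finset (KS n k)) (hA : ∀ F ∈ A, ∀ G ∈ A, 2 ≤ (F.1 ∩ G.1).card)
    (T : Finset (Fin n)) (hT : T.card = 2) :
    ∑ R ∈ powersetCard r (univ : Finset (Fin n)), (max (dg (ind A) R - μ) 0) ^ 2 ≤
      ∑ R ∈ powersetCard r (univ : Finset (Fin n)), (max (dg (star k T) R - μ) 0) ^ 2 := by
  have hkn : k ≤ n := by omega
  have hlt : ((n - r - 1).choose (k - r - 1) : ℝ) < ((n - r).choose (k - r) : ℝ) := by
    obtain ⟨m, hm⟩ : ∃ m, k - r = m + 1 := ⟨k - r - 1, by omega⟩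
    obtain ⟨N, hN⟩ : ∃ N, n - r = N + 1 := ⟨n - r - 1, by omega⟩
    have h1 : n - r - 1 = N := by omega
    have h2 : k - r - 1 = m := by omega
    rw [h1, h2, hm, hN, Nat.choose_succ_succ]
    have h3 : 0 < N.choose (m + 1) := Nat.choose_pos (by omega)
    push_cast
    have h4 : (0 : ℝ) < (N.choose (m + 1) : ℝ) := by exact_mod_cast h3
    linarith
  have hA0 : ∀ R ∈ powersetCard r (univ : Finset (Fin n)),
      dg (ind A) R ≤ ((n - r).choose (k - r) : ℝ) := by
    intro R hR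
    rw [mem_powersetCard] at hR
    have h1 := dg_le stv hkn A R (by omega)
    rwa [hR.2] at h1
  have hS1 : ∀ R ∈ powersetCard r (univ : Finset (Fin n)), T ⊆ R →
      dg (star k T) R = ((n - r).choose (k - r) : ℝ) := by
    intro R hR hTR
    rw [mem_powersetCard] at hR
    rw [dg_star stv hkn T R hT (by omega) (by omega)]
    have h1 : (R \ T).card = r - 2 := by rw [card_sdiff_of_subset hTR, hR.2, hT]
    have h2 : n - 2 - (r - 2) = n - r := by omega
    rw [h1, h2]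
    congr 1
    refine Nat.choose_symm_of_eq_add ?_
    omega
  have hS2 : ∀ R ∈ powersetCard r (univ : Finset (Fin n)), ¬ T ⊆ R →
      dg (star k T) R ≤ ((n - r - 1).choose (k - r - 1) : ℝ) := by
    intro R hR hTR
    rw [mem_powersetCard] at hR
    rw [dg_star stv hkn T R hT (by omega) (by omega)]
    have h1 : r - 1 ≤ (R \ T).card := by
      have h2 : (T ∩ R).card < T.card := by
        refine card_lt_card ⟨inter_subset_left, fun h => hTR ?_⟩
        exact h.trans inter_subset_right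
      have h3 : (R \ T).card + (R ∩ T).card = R.card := card_sdiff_add_card_inter R T
      rw [inter_comm] at h2
      omega
    have h2 : (n - r - 1).choose (k - r - 1) = (n - 2 - (r - 1)).choose (n - k) := by
      have h3 : n - 2 - (r - 1) = n - r - 1 := by omega
      rw [h3]
      refine Nat.choose_symm_of_eq_add ?_
      omega
    rw [h2]
    exact_mod_cast Nat.choose_le_choose _ (by omega)
  have hμ1 : (0 : ℝ) ≤ ((n - r - 1).choose (k - r - 1) : ℝ) := by positivity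
  have hT1 := fun h => tsl1 gcm qtw stv n k r hn hr hrk μ hμ h A hA T hT
  have hT2 := tsl1 gcm qtw stv n k r hn hr hrk _ hμ1 le_rfl A hA T hT
  generalize ((n - r - 1).choose (k - r - 1) : ℝ) = m at *
  generalize ((n - r).choose (k - r) : ℝ) = D at *
  rcases le_total μ m with h1 | h1
  · exact hT1 h1
  rcases le_total D μ with h2 | h2
  · refine le_trans (le_of_eq ?_) (Finset.sum_nonneg fun R _ => sq_nonneg _)
    refine Finset.sum_eq_zero fun R hR => ?_
    rw [max_eq_right (by linarith [hA0 R hR])]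
    norm_num
  · have hD : 0 < D - m := by linarith
    have hc : 0 ≤ (D - μ) / (D - m) := div_nonneg (by linarith) hD.le
    calc ∑ R ∈ powersetCard r (univ : Finset (Fin n)), (max (dg (ind A) R - μ) 0) ^ 2
        ≤ ∑ R ∈ powersetCard r (univ : Finset (Fin n)),
          ((D - μ) / (D - m)) ^ 2 * (max (dg (ind A) R - m) 0) ^ 2 := by
          refine Finset.sum_le_sum fun R hR => ?_
          rw [← mul_pow]
          refine pow_le_pow_left₀ (le_max_right _ _) (max_le ?_ ?_) 2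
          · rcases le_total (dg (ind A) R) m with h3 | h3
            · have h4 : 0 ≤ (D - μ) / (D - m) * max (dg (ind A) R - m) 0 :=
                mul_nonneg hc (le_max_right _ _)
              linarith
            · rw [max_eq_left (by linarith), div_mul_eq_mul_div, le_div_iff₀ hD]
              nlinarith [mul_nonneg (sub_nonneg.2 (hA0 R hR)) (sub_nonneg.2 h1)]
          · exact mul_nonneg hc (le_max_right _ _)
      _ = ((D - μ) / (D - m)) ^ 2 * ∑ R ∈ powersetCard r (univ : Finset (Fin n)),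
          (max (dg (ind A) R - m) 0) ^ 2 := by rw [Finset.mul_sum]
      _ ≤ ((D - μ) / (D - m)) ^ 2 * ∑ R ∈ powersetCard r (univ : Finset (Fin n)),
          (max (dg (star k T) R - m) 0) ^ 2 := mul_le_mul_of_nonneg_left hT2 (sq_nonneg _)
      _ = ∑ R ∈ powersetCard r (univ : Finset (Fin n)),
          ((D - μ) / (D - m)) ^ 2 * (max (dg (star k T) R - m) 0) ^ 2 := by rw [Finset.mul_sum]
      _ = ∑ R ∈ powersetCard r (univ : Finset (Fin n)), (max (dg (star k T) R - μ) 0) ^ 2 := by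
          refine Finset.sum_congr rfl fun R hR => ?_
          by_cases h3 : T ⊆ R
          · rw [hS1 R hR h3, max_eq_left hD.le, max_eq_left (by linarith), ← mul_pow,
              div_mul_cancel₀ _ hD.ne']
          · have h4 := hS2 R hR h3
            rw [max_eq_right (by linarith), max_eq_right (by linarith)]
            norm_num

end Pool.Agent.DPL.H59
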