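import Pool.Agent.DPL.StmtsC
import Pool.Agent.Helper59_DPS.FIN

/-!
Final assembly of the squad DPL: from truncated squares to the statements about families.
-/

namespace Pool.Agent.DPL.H59

open Finset Pool.Agent.DPS Pool.Agent.DPS.H59

variable {n k : ℕ}

/-- The transfer. -/
theorem transfer (hW : PWRStmt) {r : ℕ} (A : Finset (Finset (Fin n)))
    (hA : A ⊆ powersetCard k univ) (T : Finset (Fin n))
    (h : ∀ μ : ℝ, 0 ≤ μ →
      ∑ R ∈ powersetCard r (univ : Finset (Fin n)), (max (dg (ind (lft k A)) R - μ) 0) ^ 2 ≤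
        ∑ R ∈ powersetCard r (univ : Finset (Fin n)), (max (dg (star k T) R - μ) 0) ^ 2)
    {p : ℝ} (hp : 2 ≤ p) : ell r p A ≤ ell r p (fullStar k T) := by
  have h1 := hW (Finset (Fin n)) (powersetCard r (univ : Finset (Fin n)))
    (fun R => dg (ind (lft k A)) R) (fun R => dg (star k T) R) p hp
    (fun R _ => by simp only [dg_lft A hA]; exact Nat.cast_nonneg _)
    (fun R _ => by simp only [dg_star]; exact Nat.cast_nonneg _) h
  unfold ell
  simpa only [dg_lft A hA, dg_star] using h1

/-- The final statement for the levels `r ≤ t`. -/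
def FinalA : Prop :=
  ∀ (n k t r : ℕ), 1 ≤ t → t ≤ k → r ≤ t → (t + 1) * (k - t + 1) ≤ n → ∀ p : ℝ, 2 ≤ p →
    ∀ A : Finset (Finset (Fin n)), A ⊆ powersetCard k univ → TInt t A →
    ∀ T : Finset (Fin n), T.card = t → ell r p A ≤ ell r p (fullStar k T)

/-- The final statement for `t = 2`. -/
def FinalC : Prop :=
  ∀ (n k r : ℕ), r + 2 ≤ k → 3 * (k - 1) ≤ n → ∀ p : ℝ, 2 ≤ p →
    ∀ A : Finset (Finset (Fin n)), A ⊆ powersetCard k univ → TInt 2 A →
    ∀ T : Finset (Fin n), T.card = 2 → ell r p A ≤ ell r p (fullStar k T)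

/-- The case `k = t`. -/
theorem eqcase {t r : ℕ} {p : ℝ} (hp : 0 < p) (A : Finset (Finset (Fin n)))
    (hA : A ⊆ powersetCard t univ) (hT : TInt t A) (T : Finset (Fin n)) (hTc : T.card = t) :
    ell r p A ≤ ell r p (fullStar t T) := by
  have hS : fullStar t T = {T} := by
    have := fullStar_self T
    rw [hTc] at this
    exact this
  have hA' : A = ∅ ∨ ∃ F, A = {F} ∧ F.card = t := by
    rcases A.eq_empty_or_nonempty with h | ⟨F, hF⟩
    · exact Or.inl h
    · right
      refine ⟨F, ?_, (mem_powersetCard.1 (hA hF)).2⟩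
      ext G
      rw [mem_singleton]
      constructor
      · intro hG
        exact eq_of_tint (mem_powersetCard.1 (hA hG)).2 (mem_powersetCard.1 (hA hF)).2
          (hT G hG F hF)
      · rintro rfl; exact hF
  rw [hS, ell_singleton r p hp T, hTc]
  rcases hA' with h | ⟨F, h, hF⟩
  · rw [h, ell_empty r p hp]
    exact Nat.cast_nonneg _
  · rw [h, ell_singleton r p hp F, hF]

theorem finA (hW : PWRStmt) (hT : TSQStmt) (hK : KT1Stmt) : FinalA := by
  intro n k t r ht htk hr hn p hp A hA hAt T hTc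
  rcases Nat.lt_or_ge t k with hlt | hge
  · have hl := lft_tint (k := k) A hAt
    rcases Nat.lt_or_ge (t + 1) k with h2 | h2
    · exact transfer hW A hA T
        (fun μ hμ => hT n k t r ht hr (by omega) hn μ hμ (lft k A) hl T hTc) hp
    · have hk : k = t + 1 := by omega
      subst hk
      have hn2 : 2 * (t + 1) ≤ n := by
        have e : t + 1 - t + 1 = 2 := by omega
        rw [e] at hn
        omega
      exact transfer hW A hA T
        (fun μ hμ => hK n t r ht hr hn2 μ hμ (lft (t + 1) A) hl T hTc) hp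
  · have hk : k = t := le_antisymm hge htk
    subst hk
    exact eqcase (by linarith) A hA hAt T hTc

theorem finC (hW : PWRStmt) (hA2 : FinalA) (hT : TSTStmt) : FinalC := by
  intro n k r hrk hn p hp A hA hAt T hTc
  have hn' : (2 + 1) * (k - 2 + 1) ≤ n := by
    have e : k - 2 + 1 = k - 1 := by omega
    rw [e]
    exact hn
  rcases Nat.lt_or_ge 2 r with h | h
  · exact transfer hW A hA T
      (fun μ hμ => hT n k r hn h hrk μ hμ (lft k A) (lft_tint (k := k) A hAt) T hTc) hp
  · exact hA2 n k 2 r (by norm_num) (by omega) h hn' p hp A hA hAt T hTc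

end Pool.Agent.DPL.H59
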